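import Mathlib

set_option autoImplicit false

namespace Pool.Agent.Results.MP_fd91d0_co.Counter

open Finset

/-- The dissociativity dimension of a finite set. -/
noncomputable def dim {G : Type} [AddCommGroup G] (A : Finset G) : ℕ :=
  sSup {k | ∃ B ⊆ A, AddDissociated (B : Set G) ∧ B.card = k}

/-- The least dissociativity dimension of an `m`-subset. -/
noncomputable def dimMin (G : Type) [AddCommGroup G] (m : ℕ) : ℕ :=
  sInf {d | ∃ A : Finset G, A.card = m ∧ dim A = d}

/-- Four disjoint dissociated sets. -/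
def B : Fin 4 → Finset (ZMod 17) := ![{1, 2, 4, 8}, {3, 5, 6, 7}, {9, 13, 15, 16}, {10, 11, 12, 14}]

/-- Every 14-subset of the cyclic group of order 17 has dissociativity dimension at least 4. -/
theorem result : Nat.log 2 14 < dimMin (ZMod 17) 14 := by
  have d' : ∀ i, ((B i).powerset.image fun s => ∑ x ∈ s, x).card = (B i).powerset.card := by
    decide +kernel
  have d := fun i => card_image_iff.1 (d' i)
  have c : ∀ i, (B i).card = 4 := by decide +kernel
  have e : ∀ i j x, x ∈ B i → x ∈ B j → i = j := by decide +kernel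
  obtain ⟨A, -, hA⟩ := exists_subset_card_eq (s := (univ : Finset (ZMod 17))) (n := 14) (by simp)
  refine lt_of_lt_of_le (by norm_num : Nat.log 2 14 < 4) (le_csInf ⟨_, A, hA, rfl⟩ ?_)
  rintro _ ⟨A, hA, rfl⟩
  obtain ⟨i, hi⟩ : ∃ i, B i ⊆ A := by
    by_contra! n
    choose x hx using fun i => not_subset.1 (n i)
    have := card_le_card_of_injOn x (s := univ) (t := Aᶜ) (fun i _ => by simpa using (hx i).2)
      fun i _ j _ h => e i j _ (hx i).1 (h ▸ (hx j).1)
    simp [card_compl, hA] at this
  exact le_csSup ⟨14, by rintro _ ⟨C, h, -, rfl⟩; exact hA ▸ card_le_card h⟩ ⟨B i, hi,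
    fun s hs t ht => d i (mem_powerset.2 (coe_subset.1 hs)) (mem_powerset.2 (coe_subset.1 ht)),
    c i⟩

end Pool.Agent.Results.MP_fd91d0_co.Counter
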